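import Mathlib

set_option autoImplicit false

namespace Pool.Agent.Results.MP_9a0911_co.OrderSix

/-- Every symbol occurs exactly once in each row and each column. -/
def Latin {n : ℕ} (L : Fin n → Fin n → Fin n) : Prop :=
  (∀ i, Function.Bijective fun j => L i j) ∧ ∀ j, Function.Bijective fun i => L i j

/-- Exactly `r` distinct ordered pairs occur when the squares are superimposed. -/
def ROrth {n : ℕ} (r : ℕ) (L M : Fin n → Fin n → Fin n) : Prop :=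
  (Finset.univ.image fun c : Fin n × Fin n => (L c.1 c.2, M c.1 c.2)).card = r

/-- A 2 × 2 Latin subsquare in rows `i, i'` and columns `j, j'`. -/
def Sub2 {n : ℕ} (L : Fin n → Fin n → Fin n) (i i' j j' : Fin n) : Prop :=
  L i j = L i' j' ∧ L i j' = L i' j ∧ L i j ≠ L i j'

def NearOrth {n : ℕ} (L M : Fin n → Fin n → Fin n) : Prop :=
  ROrth (n ^ 2 - 2) L M ∧ ∃ i i' j j', i ≠ i' ∧ j ≠ j' ∧ Sub2 L i i' j j' ∧ Sub2 M i i' j j' ∧
    ({L i j, L i j'} : Set (Fin n)) = {M i j, M i j'}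

def A : Fin 6 → Fin 6 → Fin 6 :=
  ![![0, 1, 2, 3, 4, 5], ![1, 0, 3, 2, 5, 4], ![2, 3, 5, 4, 1, 0], ![3, 2, 4, 5, 0, 1],
    ![4, 5, 1, 0, 3, 2], ![5, 4, 0, 1, 2, 3]]

def B : Fin 6 → Fin 6 → Fin 6 :=
  ![![4, 5, 2, 1, 0, 3], ![2, 3, 4, 0, 1, 5], ![3, 0, 5, 2, 4, 1], ![5, 1, 3, 4, 2, 0],
    ![1, 2, 0, 5, 3, 4], ![0, 4, 1, 3, 5, 2]]

theorem no_common : ∀ i i' j j' : Fin 6, i ≠ i' → j ≠ j' → A i j = A i' j' → A i j' = A i' j →
    B i j = B i' j' → B i j' ≠ B i' j := by decide +kernel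

theorem result : ∃ (n : ℕ) (L M : Fin n → Fin n → Fin n), Latin L ∧ Latin M ∧
    ROrth (n ^ 2 - 2) L M ∧
    (¬ ∃ i i' j j', i ≠ i' ∧ j ≠ j' ∧ Sub2 L i i' j j' ∧ Sub2 M i i' j j') ∧
    ∀ σ : Equiv.Perm (Fin n), ¬ NearOrth L fun i j => σ (M i j) := by
  refine ⟨6, A, B, by unfold Latin; decide +kernel, by unfold Latin; decide +kernel,
    by unfold ROrth; decide +kernel, ?_, ?_⟩
  · rintro ⟨i, i', j, j', h1, h2, h3, h4⟩
    exact no_common i i' j j' h1 h2 h3.1 h3.2.1 h4.1 h4.2.1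
  · rintro σ ⟨-, i, i', j, j', h1, h2, h3, h4, -⟩
    exact no_common i i' j j' h1 h2 h3.1 h3.2.1 (σ.injective h4.1) (σ.injective h4.2.1)

end Pool.Agent.Results.MP_9a0911_co.OrderSix
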